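import Mathlib

/-!
Ironing: the projection of a finite sequence to the monotone sequences.
-/

set_option autoImplicit false

namespace Pool.Agent.X8.MA

open Finset

/-- weighted isotonic projection of `φ` -/
theorem exists_iron {m : ℕ} (F : Fin (m + 1) → ℝ) (hF : ∀ t, 0 < F t) (φ : Fin (m + 1) → ℝ) :
    ∃ ψ : Fin (m + 1) → ℝ, Monotone ψ ∧
      (∀ s, ∑ t ∈ univ.filter (fun t => s ≤ t), F t * φ t ≤
        ∑ t ∈ univ.filter (fun t => s ≤ t), F t * ψ t) ∧
      (∀ s, (∀ t, t < s → ψ t < ψ s) →
        ∑ t ∈ univ.filter (fun t => s ≤ t), F t * φ t =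
        ∑ t ∈ univ.filter (fun t => s ≤ t), F t * ψ t) := by
  classical
  have hs : ∀ t, 0 < Real.sqrt (F t) := fun t => Real.sqrt_pos.2 (hF t)
  let K : Set (EuclideanSpace ℝ (Fin (m + 1))) := {y | ∀ a b : Fin (m + 1), a ≤ b → y a / Real.sqrt (F a) ≤ y b / Real.sqrt (F b)}
  have hne : K.Nonempty := ⟨0, fun a b _ => by simp⟩
  have hclosed : IsClosed K := by
    have : K = ⋂ (a : Fin (m + 1)) (b : Fin (m + 1)) (_ : a ≤ b),
        {y : EuclideanSpace ℝ (Fin (m + 1)) | y a / Real.sqrt (F a) ≤ y b / Real.sqrt (F b)} := by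
      ext y; simp [K]
    rw [this]
    refine isClosed_iInter fun a => isClosed_iInter fun b => isClosed_iInter fun _ => ?_
    exact isClosed_le (by fun_prop) (by fun_prop)
  have hconv : Convex ℝ K := by
    intro y hy z hz a b ha hb hab i j hij
    have h1 := hy i j hij
    have h2 := hz i j hij
    simp only [PiLp.add_apply, PiLp.smul_apply, smul_eq_mul]
    rw [add_div, add_div, mul_div_assoc, mul_div_assoc, mul_div_assoc, mul_div_assoc]
    have := mul_le_mul_of_nonneg_left h1 ha
    have := mul_le_mul_of_nonneg_left h2 hb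
    linarith
  let u : EuclideanSpace ℝ (Fin (m + 1)) := WithLp.toLp 2 (fun t => Real.sqrt (F t) * φ t)
  obtain ⟨y, hyK, hy⟩ := exists_norm_eq_iInf_of_complete_convex hne hclosed.isComplete hconv u
  rw [norm_eq_iInf_iff_real_inner_le_zero hconv hyK] at hy
  let ψ : Fin (m + 1) → ℝ := fun t => y t / Real.sqrt (F t)
  have hyψ : ∀ t, y t = Real.sqrt (F t) * ψ t := fun t => by
    simp only [ψ]; field_simp [(hs t).ne']
  -- variational inequality
  have key : ∀ χ : Fin (m + 1) → ℝ, Monotone χ → ∑ t, F t * (φ t - ψ t) * (χ t - ψ t) ≤ 0 := by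
    intro χ hχ
    have hw : (WithLp.toLp 2 (fun t => Real.sqrt (F t) * χ t) : EuclideanSpace ℝ (Fin (m + 1))) ∈ K := by
      intro a b hab
      have e : ∀ t, Real.sqrt (F t) * χ t / Real.sqrt (F t) = χ t := fun t => by
        field_simp [(hs t).ne']
      show Real.sqrt (F a) * χ a / Real.sqrt (F a) ≤ Real.sqrt (F b) * χ b / Real.sqrt (F b)
      rw [e, e]; exact hχ hab
    have h := hy _ hw
    rw [PiLp.inner_apply] at h
    refine le_trans (le_of_eq ?_) h
    refine sum_congr rfl fun t _ => ?_
    simp only [PiLp.sub_apply, u, hyψ, RCLike.inner_apply, conj_trivial]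
    have : Real.sqrt (F t) * Real.sqrt (F t) = F t := Real.mul_self_sqrt (hF t).le
    calc F t * (φ t - ψ t) * (χ t - ψ t)
        = (Real.sqrt (F t) * Real.sqrt (F t)) * (φ t - ψ t) * (χ t - ψ t) := by rw [this]
      _ = _ := by ring
  have hmono : Monotone ψ := fun a b hab => hyK a b hab
  refine ⟨ψ, hmono, ?_, ?_⟩
  · intro s
    have h := key (fun t => ψ t + if s ≤ t then 1 else 0) (by
      intro a b hab
      have := hmono hab
      by_cases h1 : s ≤ a
      · have h2 : s ≤ b := h1.trans hab
        simp [h1, h2, this]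
      · simp only [h1, if_false, add_zero]
        split_ifs <;> linarith)
    have e : ∑ t, F t * (φ t - ψ t) * ((ψ t + if s ≤ t then 1 else 0) - ψ t) =
        ∑ t ∈ univ.filter (fun t => s ≤ t), F t * φ t -
          ∑ t ∈ univ.filter (fun t => s ≤ t), F t * ψ t := by
      rw [← sum_sub_distrib, sum_filter]
      refine sum_congr rfl fun t _ => ?_
      split_ifs <;> ring
    rw [e] at h
    linarith
  · intro s hs'
    -- a small downward step
    obtain ⟨δ, hδ, hδ'⟩ : ∃ δ : ℝ, 0 < δ ∧ ∀ t, t < s → ψ t ≤ ψ s - δ := by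
      by_cases h0 : ∃ t, t < s
      · obtain ⟨t0, ht0⟩ := h0
        obtain ⟨t1, ht1, hmax⟩ := (univ.filter (fun t => t < s)).exists_max_image ψ
          ⟨t0, by simpa using ht0⟩
        simp only [mem_filter, mem_univ, true_and] at ht1 hmax
        refine ⟨ψ s - ψ t1, by have := hs' t1 ht1; linarith, fun t ht => ?_⟩
        have := hmax t ht
        linarith
      · exact ⟨1, one_pos, fun t ht => absurd ⟨t, ht⟩ h0⟩
    have h := key (fun t => ψ t - if s ≤ t then δ else 0) (by
      intro a b hab
      have h3 := hmono hab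
      by_cases h1 : s ≤ a
      · have h2 : s ≤ b := h1.trans hab
        simp [h1, h2, h3]
      · simp only [h1, if_false, sub_zero]
        split_ifs with h2
        · have h4 := hδ' a (not_le.1 h1)
          have h5 := hmono h2
          linarith
        · linarith)
    have e : ∑ t, F t * (φ t - ψ t) * ((ψ t - if s ≤ t then δ else 0) - ψ t) =
        - δ * (∑ t ∈ univ.filter (fun t => s ≤ t), F t * φ t -
          ∑ t ∈ univ.filter (fun t => s ≤ t), F t * ψ t) := by
      rw [← sum_sub_distrib, sum_filter, mul_sum]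
      refine sum_congr rfl fun t _ => ?_
      split_ifs <;> ring
    rw [e] at h
    have h1 : 0 ≤ ∑ t ∈ univ.filter (fun t => s ≤ t), F t * φ t -
          ∑ t ∈ univ.filter (fun t => s ≤ t), F t * ψ t := by
      by_contra hc
      push Not at hc
      have := mul_pos_of_neg_of_neg (by linarith : -δ < 0) hc
      linarith
    have h2 := key (fun t => ψ t + if s ≤ t then 1 else 0) (by
      intro a b hab
      have := hmono hab
      by_cases h1 : s ≤ a
      · have h2 : s ≤ b := h1.trans hab
        simp [h1, h2, this]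
      · simp only [h1, if_false, add_zero]
        split_ifs <;> linarith)
    have e2 : ∑ t, F t * (φ t - ψ t) * ((ψ t + if s ≤ t then 1 else 0) - ψ t) =
        ∑ t ∈ univ.filter (fun t => s ≤ t), F t * φ t -
          ∑ t ∈ univ.filter (fun t => s ≤ t), F t * ψ t := by
      rw [← sum_sub_distrib, sum_filter]
      refine sum_congr rfl fun t _ => ?_
      split_ifs <;> ring
    rw [e2] at h2
    linarith

end Pool.Agent.X8.MA
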